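import Mathlib

/-!
# `T_Sqf` is not MS-measurable

We answer Q1 of MP_c6a6a6_lc in the negative: no model of the complete theory of
`(ℤ; +, -, 1, (P_m), (U_{p,l}))` carries an MS-measurable function `h`.

The reason: the halving map `M → M`, which sends `2 y` and `2 y + 1` to `y`, is definable and
exactly two-to-one and onto.  By the Fubini condition `h(M) = (d, 2 μ)` where, by additivity,
`h(M) = (d, μ)`; so `μ = 0`, while nonempty sets have a positive measure.
-/

universe w

namespace Pool.Agent.Results.MP_c6a6a6_lc.NotMSMeasurable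

open FirstOrder FirstOrder.Language

/-! ### The language and the structure on `ℤ` -/

/-- The function symbols `+`, `-` (unary) and the constant `1`. -/
inductive SqfFunc : ℕ → Type
  | add : SqfFunc 2
  | neg : SqfFunc 1
  | one : SqfFunc 0

/-- The unary predicates `P_m` (`m ≥ 1`) and `U_{p,l}` (`p` prime, `l ∈ ℤ`). -/
inductive SqfRel : ℕ → Type
  | P (m : ℕ) (hm : 1 ≤ m) : SqfRel 1
  | U (p : ℕ) (hp : p.Prime) (l : ℤ) : SqfRel 1

/-- The language `{+, -, 1, (P_m)_{m ≥ 1}, (U_{p,l})_{p prime, l ∈ ℤ}}`. -/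
def Lsqf : FirstOrder.Language.{0, 0} := ⟨SqfFunc, SqfRel⟩

/-- `P_m = {a ∈ ℤ : v_p(a) < 2 + v_p(m) for all primes p}`
(`emultiplicity p a` is `v_p(a)`, with value `⊤` at `a = 0`). -/
def PSet (m : ℕ) : Set ℤ :=
  {a | ∀ p : ℕ, p.Prime → emultiplicity (p : ℤ) a < 2 + emultiplicity (p : ℤ) (m : ℤ)}

/-- Sanity check: `P_1` is the set of square-free integers. -/
theorem PSet_one : PSet 1 = {a : ℤ | Squarefree a} := by
  ext a
  simp only [PSet, Set.mem_ofPred_eq, ← Int.squarefree_natAbs,
    Nat.squarefree_iff_prime_squarefree]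
  refine forall₂_congr fun p hp => ?_
  have h1 : emultiplicity (p : ℤ) ((1 : ℕ) : ℤ) = 0 := by
    rw [emultiplicity_eq_zero]
    intro hd
    have := Int.isUnit_iff.1 (isUnit_of_dvd_one (by simpa using hd))
    have := hp.two_le
    omega
  rw [h1, add_zero]
  have : ((2 : ℕ) : ℕ∞) = 2 := rfl
  rw [← this, emultiplicity_lt_iff_not_dvd, not_iff_not, ← Int.natCast_dvd]
  push_cast
  rw [sq]

/-- `U_{p,l} = {a ∈ ℤ : v_p(a) ≥ l}`. -/
def USet (p : ℕ) (l : ℤ) : Set ℤ :=
  {a | ((l.toNat : ℕ) : ℕ∞) ≤ emultiplicity (p : ℤ) a}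

/-- The standard structure on `ℤ`. -/
instance structInt : Lsqf.Structure ℤ where
  funMap := fun {n} (f : SqfFunc n) => match n, f with
    | _, .add => fun x => x 0 + x 1
    | _, .neg => fun x => - x 0
    | _, .one => fun _ => 1
  RelMap := fun {n} (r : SqfRel n) => match n, r with
    | _, .P m _ => fun x => x 0 ∈ PSet m
    | _, .U p _ l => fun x => x 0 ∈ USet p l

/-- The complete theory `T_Sqf` of `ℤ` in this language. -/
def TSqf : Lsqf.Theory := Lsqf.completeTheory ℤ

/-! ### MS-measurable structures -/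

/-- `X` is definable in `M` with parameters from `M`. -/
def PDef (L : FirstOrder.Language) {M : Type*} [L.Structure M] {α : Type} (X : Set (α → M)) : Prop :=
  (Set.univ : Set M).Definable L X

/-- `h` is an MS-measuring function on the parameter-definable subsets of `M ^ n`, `n ≥ 1`
(only the values of `h` at these sets matter). -/
structure IsMSMeasure (L : FirstOrder.Language) (M : Type*) [L.Structure M]
    (h : (n : ℕ) → Set (Fin n → M) → ℕ × ℝ) : Prop where
  /-- the values are in `(ℕ × ℝ_{> 0}) ∪ {(0, 0)}` -/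
  range : ∀ n, 1 ≤ n → ∀ X : Set (Fin n → M), PDef L X → h n X = (0, 0) ∨ 0 < (h n X).2
  /-- condition 1 -/
  definability : ∀ n m, 1 ≤ n → 1 ≤ m → ∀ φ : L.Formula (Fin n ⊕ Fin m),
    {v | ∃ b : Fin m → M, h n {a | φ.Realize (Sum.elim a b)} = v}.Finite ∧
    ∀ v, (∃ b : Fin m → M, h n {a | φ.Realize (Sum.elim a b)} = v) →
      (∅ : Set M).Definable L {b : Fin m → M | h n {a | φ.Realize (Sum.elim a b)} = v}
  /-- condition 2 -/
  finite : ∀ n, 1 ≤ n → ∀ X : Set (Fin n → M), X.Finite → h n X = (0, (X.ncard : ℝ))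
  /-- condition 3: for a definable surjection `f : X → Y` between (nonempty) definable sets
  there is a partition `Z 1, …, Z r` of `Y` into (nonempty) definable sets such that
  `h (f⁻¹ y) = v i` for `y ∈ Z i` and `h X = (c, ∑ (v i).2 * (h (Z i)).2)`, the sum over the `i`
  for which `(v i).1 + (h (Z i)).1` is equal to the maximum `c` of these numbers -/
  fubini : ∀ n m, 1 ≤ n → 1 ≤ m → ∀ (X : Set (Fin n → M)) (Y : Set (Fin m → M))
    (f : (Fin n → M) → (Fin m → M)), X.Nonempty → PDef L X → PDef L Y → f '' X = Y →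
    PDef L {z : Fin n ⊕ Fin m → M | z ∘ Sum.inl ∈ X ∧ z ∘ Sum.inr = f (z ∘ Sum.inl)} →
    ∃ (r : ℕ) (Z : Fin r → Set (Fin m → M)) (v : Fin r → ℕ × ℝ) (c : ℕ),
      (∀ i, (Z i).Nonempty) ∧ (∀ i, PDef L (Z i)) ∧ (Pairwise fun i j => Disjoint (Z i) (Z j)) ∧
      (⋃ i, Z i) = Y ∧ (∀ i, ∀ y ∈ Z i, h n {x | x ∈ X ∧ f x = y} = v i) ∧
      IsGreatest (Set.range fun i => (v i).1 + (h m (Z i)).1) c ∧
      h n X = (c, ∑ i with (v i).1 + (h m (Z i)).1 = c, (v i).2 * (h m (Z i)).2)

/-- A complete theory `T` is MS-measurable if it has a (nonempty) model with an MS-measuring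
function. -/
def IsMSMeasurableTheory.{u, v, w'} {L : FirstOrder.Language.{u, v}} (T : L.Theory) : Prop :=
  ∃ (M : Type w') (_ : L.Structure M), Nonempty M ∧ M ⊨ T ∧ ∃ h, IsMSMeasure L M h

/-! ### Proof -/

section general

variable {L : FirstOrder.Language} {M : Type*} [L.Structure M] {h : (n : ℕ) → Set (Fin n → M) → ℕ × ℝ}

theorem pdef_eq_const {α : Type} (i : α) (a : M) : PDef L {z : α → M | z i = a} := by
  refine ⟨(Term.var i).equal (L.con (⟨a, trivial⟩ : (Set.univ : Set M))).term, ?_⟩
  ext z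
  simp

theorem pdef_point {α : Type} (g : Fin 1 → α) (a : Fin 1 → M) :
    PDef L {z : α → M | z ∘ g = a} := by
  have : {z : α → M | z ∘ g = a} = {z : α → M | z (g 0) = a 0} := by
    ext z
    simp only [Set.mem_ofPred_eq]
    constructor
    · intro h
      exact congrFun h 0
    · intro h
      funext i
      have : i = 0 := Subsingleton.elim _ _
      subst this
      exact h
  rw [this]
  exact pdef_eq_const _ _

theorem add_two (hh : IsMSMeasure L M h) (A B : Set (Fin 1 → M)) (hA : A.Nonempty)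
    (hB : B.Nonempty) (dA : PDef L A) (dB : PDef L B) (hd : Disjoint A B) :
    h 1 (A ∪ B) = (max (h 1 A).1 (h 1 B).1,
      (if (h 1 A).1 = max (h 1 A).1 (h 1 B).1 then (h 1 A).2 else 0) +
      (if (h 1 B).1 = max (h 1 A).1 (h 1 B).1 then (h 1 B).2 else 0)) := by
  classical
  obtain ⟨a, ha⟩ := hA
  obtain ⟨b, hb⟩ := hB
  have hab : a ≠ b := fun e => Set.disjoint_left.1 hd ha (e ▸ hb)
  have haB : ∀ x ∈ B, x ∉ A := fun x hx hx' => Set.disjoint_left.1 hd hx' hx
  set f : (Fin 1 → M) → (Fin 1 → M) := fun x => if x ∈ A then a else b with hf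
  have himg : f '' (A ∪ B) = {a, b} := by
    ext y
    simp only [Set.mem_image, Set.mem_union, Set.mem_insert_iff, Set.mem_singleton_iff, hf]
    constructor
    · rintro ⟨x, -, rfl⟩
      split_ifs
      · exact Or.inl rfl
      · exact Or.inr rfl
    · rintro (rfl | rfl)
      · exact ⟨y, Or.inl ha, by simp [ha]⟩
      · exact ⟨y, Or.inr hb, by simp [haB y hb]⟩
  have dY : PDef L ({a, b} : Set (Fin 1 → M)) := by
    have h1 : PDef L {z : Fin 1 → M | z ∘ id = a} := pdef_point id a
    have h2 : PDef L {z : Fin 1 → M | z ∘ id = b} := pdef_point id b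
    have := Set.Definable.union h1 h2
    have e : ({a, b} : Set (Fin 1 → M)) = {z : Fin 1 → M | z ∘ id = a} ∪ {z | z ∘ id = b} := by
      ext z
      simp only [Set.mem_insert_iff, Set.mem_singleton_iff, Set.mem_union, Set.mem_ofPred_eq,
        Function.comp_id]
    rw [e]
    exact this
  have dG : PDef L {z : Fin 1 ⊕ Fin 1 → M |
      z ∘ Sum.inl ∈ A ∪ B ∧ z ∘ Sum.inr = f (z ∘ Sum.inl)} := by
    have h1 : PDef L {z : Fin 1 ⊕ Fin 1 → M | z ∘ Sum.inr = a} := pdef_point Sum.inr a
    have h2 : PDef L {z : Fin 1 ⊕ Fin 1 → M | z ∘ Sum.inr = b} := pdef_point Sum.inr b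
    have h3 : PDef L ((fun g : Fin 1 ⊕ Fin 1 → M => g ∘ Sum.inl) ⁻¹' A) :=
      Set.Definable.preimage_comp Sum.inl dA
    have h4 : PDef L ((fun g : Fin 1 ⊕ Fin 1 → M => g ∘ Sum.inl) ⁻¹' B) :=
      Set.Definable.preimage_comp Sum.inl dB
    have h5 := Set.Definable.union (Set.Definable.inter h3 h1) (Set.Definable.inter h4 h2)
    refine (congrArg (PDef L) ?_).mp h5
    ext z
    simp only [Set.mem_union, Set.mem_inter_iff, Set.mem_preimage, Set.mem_ofPred_eq, hf]
    constructor
    · rintro (⟨h1, h2⟩ | ⟨h1, h2⟩)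
      · exact ⟨Or.inl h1, by rw [if_pos h1]; exact h2⟩
      · exact ⟨Or.inr h1, by rw [if_neg (haB _ h1)]; exact h2⟩
    · rintro ⟨h1 | h1, h2⟩
      · rw [if_pos h1] at h2
        exact Or.inl ⟨h1, h2⟩
      · rw [if_neg (haB _ h1)] at h2
        exact Or.inr ⟨h1, h2⟩
  obtain ⟨r, Z, v, c, hne, -, hdis, hU, hv, hc, hX⟩ :=
    hh.fubini 1 1 le_rfl le_rfl (A ∪ B) {a, b} f ⟨a, Or.inl ha⟩
      (Set.Definable.union dA dB) dY himg dG
  have fa : {x | x ∈ A ∪ B ∧ f x = a} = A := by
    ext x
    simp only [Set.mem_union, Set.mem_ofPred_eq, hf]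
    constructor
    · rintro ⟨h1, h2⟩
      by_contra hx
      rw [if_neg hx] at h2
      exact hab h2.symm
    · intro hx
      exact ⟨Or.inl hx, if_pos hx⟩
  have fb : {x | x ∈ A ∪ B ∧ f x = b} = B := by
    ext x
    simp only [Set.mem_union, Set.mem_ofPred_eq, hf]
    constructor
    · rintro ⟨h1 | h1, h2⟩
      · rw [if_pos h1] at h2
        exact absurd h2 hab
      · exact h1
    · intro hx
      exact ⟨Or.inr hx, if_neg (haB x hx)⟩
  have hsub : ∀ i, Z i ⊆ {a, b} := fun i => hU ▸ Set.subset_iUnion Z i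
  have hfin : ∀ i, (Z i).Finite := fun i => (Set.toFinite {a, b}).subset (hsub i)
  have hZ : ∀ i, h 1 (Z i) = (0, ((Z i).ncard : ℝ)) := fun i => hh.finite 1 le_rfl _ (hfin i)
  obtain ⟨ia, hia⟩ : ∃ i, a ∈ Z i := by
    have : a ∈ ⋃ i, Z i := by rw [hU]; simp
    simpa using this
  obtain ⟨ib, hib⟩ : ∃ i, b ∈ Z i := by
    have : b ∈ ⋃ i, Z i := by rw [hU]; simp
    simpa using this
  have va : v ia = h 1 A := by rw [← hv ia a hia, fa]
  have vb : v ib = h 1 B := by rw [← hv ib b hib, fb]
  have hidx : ∀ i, i = ia ∨ i = ib := by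
    intro i
    obtain ⟨y, hy⟩ := hne i
    rcases hsub i hy with e | e
    · left
      by_contra hne'
      exact Set.disjoint_left.1 (hdis hne') hy (by rw [e]; exact hia)
    · right
      by_contra hne'
      rw [Set.mem_singleton_iff] at e
      exact Set.disjoint_left.1 (hdis hne') hy (by rw [e]; exact hib)
  have hcmax : c = max (h 1 A).1 (h 1 B).1 := by
    apply le_antisymm
    · obtain ⟨i, hi⟩ := hc.1
      simp only [hZ i, add_zero] at hi
      rw [← hi]
      rcases hidx i with e | e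
      · rw [e, va]; exact le_max_left _ _
      · rw [e, vb]; exact le_max_right _ _
    · apply max_le
      · have := hc.2 ⟨ia, rfl⟩
        simp only [hZ ia, add_zero] at this
        rwa [va] at this
      · have := hc.2 ⟨ib, rfl⟩
        simp only [hZ ib, add_zero] at this
        rwa [vb] at this
  rw [hX, ← hcmax]
  congr 1
  rw [Finset.sum_filter]
  simp only [hZ, add_zero]
  by_cases hiab : ia = ib
  · have huniv : (Finset.univ : Finset (Fin r)) = {ia} := by
      ext i
      simp only [Finset.mem_univ, Finset.mem_singleton, true_iff]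
      rcases hidx i with e | e
      · exact e
      · rw [e, hiab]
    have hAB : h 1 A = h 1 B := by rw [← va, ← vb, hiab]
    have hZab : Z ia = {a, b} := by
      apply Set.Subset.antisymm (hsub ia)
      rintro y (rfl | hy)
      · exact hia
      · rw [Set.mem_singleton_iff] at hy
        rw [hy, hiab]
        exact hib
    rw [huniv, Finset.sum_singleton, va, hZab, Set.ncard_pair hab, ← hAB]
    split_ifs
    · push_cast
      ring
    · simp
  · have huniv : (Finset.univ : Finset (Fin r)) = {ia, ib} := by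
      ext i
      simp only [Finset.mem_univ, Finset.mem_singleton, Finset.mem_insert, true_iff]
      exact hidx i
    have hZa : Z ia = {a} := by
      ext y
      constructor
      · intro hy
        rcases hsub ia hy with e | e
        · exact e
        · rw [Set.mem_singleton_iff] at e
          exact absurd hib (Set.disjoint_left.1 (hdis hiab) (e ▸ hy))
      · rintro rfl
        exact hia
    have hZb : Z ib = {b} := by
      ext y
      constructor
      · intro hy
        rcases hsub ib hy with e | e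
        · exact absurd hia (Set.disjoint_right.1 (hdis hiab) (e ▸ hy))
        · exact e
      · rintro rfl
        exact hib
    rw [huniv, Finset.sum_pair hiab, va, vb, hZa, hZb, Set.ncard_singleton, Set.ncard_singleton]
    simp

theorem add_finite (hh : IsMSMeasure L M h) {ι : Type} [DecidableEq ι]
    (Z : ι → Set (Fin 1 → M)) (hne : ∀ i, (Z i).Nonempty) (hd : ∀ i, PDef L (Z i))
    (hdis : Pairwise fun i j => Disjoint (Z i) (Z j)) (s : Finset ι) (hs : s.Nonempty) :
    ∃ c, (∀ i ∈ s, (h 1 (Z i)).1 ≤ c) ∧ (∃ i ∈ s, (h 1 (Z i)).1 = c) ∧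
      h 1 (⋃ i ∈ s, Z i) = (c, ∑ i ∈ s, if (h 1 (Z i)).1 = c then (h 1 (Z i)).2 else 0) := by
  classical
  induction hs using Finset.Nonempty.cons_induction with
  | singleton a =>
    refine ⟨(h 1 (Z a)).1, by simp, ⟨a, by simp, rfl⟩, ?_⟩
    simp
  | cons a s ha hs ih =>
    obtain ⟨c, hc1, ⟨j, hj, hjc⟩, hc3⟩ := ih
    have hU : (⋃ i ∈ Finset.cons a s ha, Z i) = Z a ∪ ⋃ i ∈ s, Z i := by
      ext x
      simp
    have hne2 : (⋃ i ∈ s, Z i).Nonempty := by
      obtain ⟨x, hx⟩ := hne j
      exact ⟨x, Set.mem_biUnion hj hx⟩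
    have hdis2 : Disjoint (Z a) (⋃ i ∈ s, Z i) := by
      rw [Set.disjoint_iUnion₂_right]
      intro i hi
      exact hdis (fun e => ha (e ▸ hi))
    have key := add_two hh (Z a) (⋃ i ∈ s, Z i) (hne a) hne2 (hd a)
      (Set.definable_biUnion_finset hd s) hdis2
    rw [hc3] at key
    simp only at key
    rw [hU]
    rcases lt_trichotomy (h 1 (Z a)).1 c with hlt | heq | hgt
    · refine ⟨c, ?_, ⟨j, by simp [hj], hjc⟩, ?_⟩
      · intro i hi
        rw [Finset.mem_cons] at hi
        rcases hi with e | hi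
        · rw [e]; exact hlt.le
        · exact hc1 i hi
      · rw [key, max_eq_right hlt.le, Finset.sum_cons, if_neg hlt.ne, if_pos rfl]
    · refine ⟨c, ?_, ⟨j, by simp [hj], hjc⟩, ?_⟩
      · intro i hi
        rw [Finset.mem_cons] at hi
        rcases hi with e | hi
        · rw [e]; exact heq.le
        · exact hc1 i hi
      · rw [key, max_eq_right heq.le, Finset.sum_cons, if_pos heq, if_pos rfl]
    · refine ⟨(h 1 (Z a)).1, ?_, ⟨a, by simp, rfl⟩, ?_⟩
      · intro i hi
        rw [Finset.mem_cons] at hi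
        rcases hi with e | hi
        · rw [e]
        · exact (hc1 i hi).trans hgt.le
      · rw [key, max_eq_left hgt.le, Finset.sum_cons, if_pos rfl, if_neg hgt.ne]
        congr 2
        symm
        apply Finset.sum_eq_zero
        intro i hi
        rw [if_neg ((hc1 i hi).trans_lt hgt).ne]

/-- Nonempty definable sets have a positive measure. -/
theorem pos (hh : IsMSMeasure L M h) (X : Set (Fin 1 → M)) (hX : X.Nonempty) (dX : PDef L X) :
    0 < (h 1 X).2 := by
  obtain ⟨a, ha⟩ := hX
  have h1 : h 1 {a} = (0, 1) := by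
    rw [hh.finite 1 le_rfl _ (Set.finite_singleton a), Set.ncard_singleton]
    simp
  by_cases hB : (X \ {a}).Nonempty
  · have da : PDef L ({a} : Set (Fin 1 → M)) := by
      have := pdef_point (L := L) (id : Fin 1 → Fin 1) a
      refine (congrArg (PDef L) ?_).mp this
      ext z
      simp
    have dB : PDef L (X \ {a}) := Set.Definable.sdiff dX da
    have key := add_two hh {a} (X \ {a}) ⟨a, rfl⟩ hB da dB
      (Set.disjoint_sdiff_right)
    have hU : {a} ∪ (X \ {a}) = X := by
      rw [Set.union_sdiff_self]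
      exact Set.union_eq_right.2 (Set.singleton_subset_iff.2 ha)
    rw [hU, h1] at key
    rw [key]
    simp only [Nat.zero_le, sup_of_le_right, ↓reduceIte]
    rcases hh.range 1 le_rfl _ dB with e | e
    · rw [e]
      simp
    · split_ifs <;> linarith
  · have : X = {a} := by
      apply Set.Subset.antisymm
      · intro x hx
        by_contra hxa
        exact hB ⟨x, hx, hxa⟩
      · exact Set.singleton_subset_iff.2 ha
    rw [this, h1]
    norm_num

/-- A structure with a definable two-to-one surjection `M → M` has no MS-measuring function. -/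
theorem no_measure [Nonempty M] (hh : IsMSMeasure L M h) (f : (Fin 1 → M) → (Fin 1 → M))
    (hsurj : Function.Surjective f) (hfib : ∀ y, {x | f x = y}.Finite ∧ {x | f x = y}.ncard = 2)
    (dG : PDef L {z : Fin 1 ⊕ Fin 1 → M | z ∘ Sum.inr = f (z ∘ Sum.inl)}) : False := by
  classical
  have dU : PDef L (Set.univ : Set (Fin 1 → M)) := Set.definable_univ
  obtain ⟨r, Z, v, c, hne, hZd, hdis, hU, hv, hc, hX⟩ :=
    hh.fubini 1 1 le_rfl le_rfl Set.univ Set.univ f Set.univ_nonempty dU dU
      (by rw [Set.image_univ, hsurj.range_eq]) (by simpa using dG)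
  have hvi : ∀ i, v i = (0, 2) := by
    intro i
    obtain ⟨y, hy⟩ := hne i
    rw [← hv i y hy]
    have e : {x | x ∈ (Set.univ : Set (Fin 1 → M)) ∧ f x = y} = {x | f x = y} := by simp
    rw [e, hh.finite 1 le_rfl _ (hfib y).1, (hfib y).2]
    norm_num
  have hs : (Finset.univ : Finset (Fin r)).Nonempty := by
    obtain ⟨i, -⟩ := hc.1
    exact ⟨i, Finset.mem_univ i⟩
  obtain ⟨c', h1, ⟨j, -, hj⟩, h3⟩ := add_finite hh Z hne hZd hdis Finset.univ hs
  have hUU : (⋃ i ∈ (Finset.univ : Finset (Fin r)), Z i) = Set.univ := by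
    rw [← hU]
    simp
  rw [hUU] at h3
  have hcc : c = c' := by
    have := congrArg Prod.fst (hX.symm.trans h3)
    exact this
  have hpos := pos hh Set.univ Set.univ_nonempty dU
  have e2 : (h 1 Set.univ).2 = 2 * (h 1 Set.univ).2 := by
    have a1 : (h 1 Set.univ).2 = ∑ i, if (h 1 (Z i)).1 = c' then (h 1 (Z i)).2 else 0 := by
      rw [h3]
    have a2 : (h 1 Set.univ).2 =
        ∑ i with (v i).1 + (h 1 (Z i)).1 = c, (v i).2 * (h 1 (Z i)).2 := by
      rw [hX]
    have a3 : ∑ i with (v i).1 + (h 1 (Z i)).1 = c, (v i).2 * (h 1 (Z i)).2 =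
        2 * ∑ i, if (h 1 (Z i)).1 = c' then (h 1 (Z i)).2 else 0 := by
      rw [Finset.sum_filter, Finset.mul_sum]
      apply Finset.sum_congr rfl
      intro i _
      rw [hvi i, hcc]
      simp only [zero_add]
      split_ifs <;> simp
    rw [a3, ← a1] at a2
    exact a2
  linarith

end general

/-! ### The halving map in models of `T_Sqf` -/

section models

/-- `s + t` -/
def addT {α : Type} (s t : Lsqf.Term α) : Lsqf.Term α :=
  Functions.apply₂ (SqfFunc.add : Lsqf.Functions 2) s t

/-- `1` -/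
def oneT {α : Type} : Lsqf.Term α := Constants.term (SqfFunc.one : Lsqf.Constants)

variable {M : Type*} [Lsqf.Structure M]

/-- Addition of a structure. -/
def ad (x y : M) : M := Structure.funMap (L := Lsqf) (n := 2) SqfFunc.add ![x, y]

/-- The constant `1` of a structure. -/
def on : M := Structure.funMap (L := Lsqf) (n := 0) SqfFunc.one ![]

theorem realize_addT {α : Type} (s t : Lsqf.Term α) (v : α → M) :
    (addT s t).realize v = ad (s.realize v) (t.realize v) :=
  Term.realize_functions_apply₂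

theorem realize_oneT {α : Type} (v : α → M) :
    (oneT : Lsqf.Term α).realize v = on := by
  unfold oneT on
  rw [Term.realize_constants]
  change Structure.funMap (L := Lsqf) (n := 0) SqfFunc.one default = _
  exact congrArg (Structure.funMap (L := Lsqf) (n := 0) SqfFunc.one) (Subsingleton.elim _ _)

theorem ad_int (x y : ℤ) : ad x y = x + y := rfl

theorem on_int : (on : ℤ) = 1 := rfl

/-- every element is `2 y` or `2 y + 1` -/
def S1 : Lsqf.Sentence :=
  ∀' ∃' ((&0 =' addT &1 &1) ⊔ (&0 =' addT (addT &1 &1) oneT))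

/-- `y` is unique -/
def S2 : Lsqf.Sentence :=
  ∀' ∀' ∀' (((&0 =' addT &1 &1) ⊔ (&0 =' addT (addT &1 &1) oneT)) ⟹
    (((&0 =' addT &2 &2) ⊔ (&0 =' addT (addT &2 &2) oneT)) ⟹ (&1 =' &2)))

/-- `2 y ≠ 2 y + 1` -/
def S3 : Lsqf.Sentence :=
  ∀' ∼ ((addT &0 &0) =' addT (addT &0 &0) oneT)

theorem S1_iff : M ⊨ S1 ↔ ∀ x : M, ∃ y : M, x = ad y y ∨ x = ad (ad y y) on := by
  simp [S1, Sentence.Realize, Formula.Realize, realize_addT, realize_oneT, Fin.snoc]

theorem S2_iff : M ⊨ S2 ↔ ∀ x y z : M, (x = ad y y ∨ x = ad (ad y y) on) →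
    (x = ad z z ∨ x = ad (ad z z) on) → y = z := by
  simp [S2, Sentence.Realize, Formula.Realize, realize_addT, realize_oneT, Fin.snoc]

theorem S3_iff : M ⊨ S3 ↔ ∀ y : M, ad y y ≠ ad (ad y y) on := by
  simp [S3, Sentence.Realize, Formula.Realize, realize_addT, realize_oneT, Fin.snoc]

theorem S1_int : ℤ ⊨ S1 := by
  rw [S1_iff]
  intro x
  simp only [ad_int, on_int]
  exact ⟨x / 2, by omega⟩

theorem S2_int : ℤ ⊨ S2 := by
  rw [S2_iff]
  intro x y z
  simp only [ad_int, on_int]
  omega

theorem S3_int : ℤ ⊨ S3 := by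
  rw [S3_iff]
  intro y
  simp only [ad_int, on_int]
  omega

end models

/-- **No model of `T_Sqf` carries an MS-measuring function**, that is, `T_Sqf` is not
MS-measurable. -/
theorem result : ¬ IsMSMeasurableTheory.{0, 0, w} TSqf := by
  classical
  rintro ⟨M, _, hne, hM, h, hh⟩
  have t1 : M ⊨ S1 := hM.realize_of_mem _ S1_int
  have t2 : M ⊨ S2 := hM.realize_of_mem _ S2_int
  have t3 : M ⊨ S3 := hM.realize_of_mem _ S3_int
  rw [S1_iff] at t1
  rw [S2_iff] at t2
  rw [S3_iff] at t3
  choose g hg using t1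
  have hg2 : ∀ x y, (x = ad y y ∨ x = ad (ad y y) on) → g x = y := fun x y hx =>
    t2 x _ _ (hg x) hx
  let f : (Fin 1 → M) → (Fin 1 → M) := fun x _ => g (x 0)
  have hf : ∀ x y, f x = y ↔ (x 0 = ad (y 0) (y 0) ∨ x 0 = ad (ad (y 0) (y 0)) on) := by
    intro x y
    constructor
    · rintro rfl
      exact hg (x 0)
    · intro hx
      funext i
      have : i = 0 := Subsingleton.elim _ _
      subst this
      exact hg2 _ _ hx
  have hfe : ∀ y : Fin 1 → M, {x | f x = y} =
      {(fun _ => ad (y 0) (y 0)), (fun _ => ad (ad (y 0) (y 0)) on)} := by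
    intro y
    ext x
    simp only [Set.mem_ofPred_eq, Set.mem_insert_iff, Set.mem_singleton_iff, hf]
    constructor
    · rintro (e | e)
      · left
        funext i
        rw [Subsingleton.elim i 0, e]
      · right
        funext i
        rw [Subsingleton.elim i 0, e]
    · rintro (e | e)
      · left
        rw [e]
      · right
        rw [e]
  refine no_measure hh f ?_ ?_ ?_
  · intro y
    exact ⟨fun _ => ad (y 0) (y 0), (hf (fun _ => ad (y 0) (y 0)) y).2 (Or.inl rfl)⟩
  · intro y
    rw [hfe y]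
    refine ⟨Set.toFinite _, Set.ncard_pair ?_⟩
    intro e
    exact t3 (y 0) (congrFun e 0)
  · let φ : Lsqf.Formula (Fin 1 ⊕ Fin 1) :=
      ((Term.var (Sum.inl 0)).equal (addT (Term.var (Sum.inr 0)) (Term.var (Sum.inr 0)))) ⊔
      ((Term.var (Sum.inl 0)).equal
        (addT (addT (Term.var (Sum.inr 0)) (Term.var (Sum.inr 0))) oneT))
    have : (∅ : Set M).Definable Lsqf
        {z : Fin 1 ⊕ Fin 1 → M | z ∘ Sum.inr = f (z ∘ Sum.inl)} := by
      rw [Set.empty_definable_iff]
      refine ⟨φ, ?_⟩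
      ext z
      simp only [Set.mem_ofPred_eq, φ, Formula.realize_sup, Formula.realize_equal, realize_addT,
        realize_oneT, Term.realize_var]
      rw [eq_comm, hf]
      rfl
    exact this.mono (Set.empty_subset _)

end Pool.Agent.Results.MP_c6a6a6_lc.NotMSMeasurable
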